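import Pool.Agent.H43.CE.S.S3

/-!
# CE, job S-S4 : the divisors have height one

Compare `CMT.Pid_height` (CM/E/E3.lean).
* `QQ_inj` : `QQ I u w p ≤ QQ I u w p'` gives `VI (E1 I p.1 p.2) ≤ VI (E1 I p'.1 p'.2)` (`mk_mem_QQ`), so `VI (SS 1 (p.1*p.2)) ≤ VI (SS 1 (p'.1*p'.2))` (`inX_mem_iff`), so `ble (p'.1*p'.2) (p.1*p.2)`
  (`CMT.ble_of_VI_le`, `SS 1 _` nonempty by `CMT.SS_nonempty_of_ble`, `CMT.ble_one`); both are covered by `u*w` (`fac1_cov`) so they have the same length and are equal (`CMT.eq_of_ble_of_len`); `fac1_inj`.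
* `QQ_height` : `dS k ∈ QQ` (`exists_dS_mem_QQ`), `dS k ≠ 0`; a minimal prime `Q` over `(dS k)` contained in `QQ I u w p` has height one (Krull; as in E3.lean, `𝒮` Noetherian domain), so `Q = QQ I u w p'` by
  `exists_fac_of_mem`, and `p' = p` by `QQ_inj`.
-/

open MvPolynomial

noncomputable section

namespace CE

open CMT

variable {n : ℕ} {I : Finset (Fin n)} {u w : Equiv.Perm (Fin n)}

theorem QQ_inj (hne : NE u w) (hp : Pres I u)
    {p p' : Equiv.Perm (Fin n) × Equiv.Perm (Fin n)} (hf : Fac1 u w p) (hf' : Fac1 u w p')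
    (h : QQ I u w p ≤ QQ I u w p') : p = p' := by
  have h1 : VI (SS 1 (p.1 * p.2)) ≤ VI (SS 1 (p'.1 * p'.2)) := by
    intro f hfm
    have h2 : inX f ∈ VI (E1 I p.1 p.2) := (inX_mem_iff f).2 hfm
    have h3 := h ((mk_mem_QQ hne hp hf (inX f)).2 h2)
    exact (inX_mem_iff f).1 ((mk_mem_QQ hne hp hf' (inX f)).1 h3)
  have h2 := ble_of_VI_le h1 (SS_nonempty_of_ble (ble_one _))
  have h3 : len (p'.1 * p'.2) = len (p.1 * p.2) := by
    have h4 := (fac1_cov hne hf).2
    have h5 := (fac1_cov hne hf').2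
    omega
  exact fac1_inj hne hf hf' (eq_of_ble_of_len h2 h3).symm

theorem QQ_height (hne : NE u w) (hp : Pres I u)
    {p : Equiv.Perm (Fin n) × Equiv.Perm (Fin n)} (hf : Fac1 u w p) :
    (QQ I u w p).height = 1 := by
  obtain ⟨k, hk⟩ := exists_dS_mem_QQ hne hp hf
  have hdom : IsDomain (CR (E1 I u w)) := (E1_normal hne.1 hp).1
  have hprime : (QQ I u w p).IsPrime := QQ_isPrime hne hp hf
  obtain ⟨Q, hQ, hQP⟩ := Ideal.exists_minimalPrimes_le
    (I := Ideal.span {dS I u w k}) (J := QQ I u w p)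
    ((Ideal.span_singleton_le_iff_mem _).2 hk)
  have hQprime : Q.IsPrime := hQ.1.1
  have hQmem : dS I u w k ∈ Q := hQ.1.2 (Ideal.mem_span_singleton_self _)
  have hQ1 : Q.height ≤ 1 := Ideal.height_le_one_of_isPrincipal_of_mem_minimalPrimes _ Q hQ
  have hQ0 : Q.height ≠ 0 := by
    intro h4
    rw [Ideal.height_eq_zero_iff_eq_bot] at h4
    rw [h4] at hQmem
    exact dS_ne_zero I u w k (by simpa using hQmem)
  have hQh : Q.height = 1 := by
    apply le_antisymm hQ1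
    exact Order.one_le_iff_ne_zero.2 hQ0
  obtain ⟨p', hf', hQw⟩ := exists_fac_of_mem hne hp Q hQprime hQh k hQmem
  have heq : p' = p := QQ_inj hne hp hf' hf (by rw [← hQw]; exact hQP)
  rw [← heq, ← hQw]
  exact hQh

end CE
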