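import Pool.Agent.H43.CE.Defs

/-!
# CE, job S-Cov : covers of a length additive product

Notation `i = w a`, `j = w b`.
* `hasse_split` : `Hasse (u * w) a b`: `a < b`, `u j < u i`, nothing between.
  Case `i < j`: `Hasse u i j`: if `i < c < j`, `u j < u c < u i` then `AD` for `(i,c)` and `(c,j)`: `a = w⁻¹ i < w⁻¹ c < w⁻¹ j = b` and `(u*w) (w⁻¹ c) = u c` is between: contradiction.
  Case `j < i`: `Hasse w a b`: let `a < c' < b`, `w b < w c' < w a`, `c = w c'`: `j < c < i`; `u c` is not between `u j` and `u i` (Hasse of `u*w` at `c'`); if `u c < u j`: `AD` for `(j, c)`: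
  `b = w⁻¹ j < w⁻¹ c = c'`, contradiction; if `u i < u c`: `AD` for `(c, i)`: `c' < a`, contradiction.
* `fac1_hasse` : Case `cov p.1 u`, `p.2 = w`: `CMT.hasse_of_cov`: `p.1 = u * swap i j`, `Hasse u i j`; `a = w⁻¹ i`, `b = w⁻¹ j`, `a < b` by `AD u w`; `(u*w) b = u j < u i = (u*w) a`.
  Nothing between: let `a < c' < b`, `c = w c'`, `u j < u c < u i`; by `Hasse u i j`: `c < i` or `j < c`.  If `c < i`: `p.1 i = u j < u c = p.1 c`, so `AD p.1 w`: `w⁻¹ c < w⁻¹ i`, `c' < a`, contradiction.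
  If `j < c`: `p.1 j = u i > u c = p.1 c`: `w⁻¹ j < w⁻¹ c`, `b < c'`, contradiction.  `u * swap i j * w = u * w * swap a b`.
  Case `p.1 = u`, `cov p.2 w`: `p.2 = w * swap a b`, `Hasse w a b`.  `u (w b) < u (w a)`: otherwise (`w b < w a`) `AD u w` gives `b < a`.  Nothing between: `a < c' < b`, `c = w c'`,
  `u (w b) < u c < u (w a)`; by `Hasse w a b`: `c < w b` or `w a < c`.  If `c < w b`: `AD u p.2` for `(c, w b)`: `p.2⁻¹ c < p.2⁻¹ (w b)`, i.e. `c' < a`, contradiction.  If `w a < c`: `AD u p.2` for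
  `(w a, c)`: `b = p.2⁻¹ (w a) < p.2⁻¹ c = c'`, contradiction.
* `fac1_cov` : `CMT.cov_of_hasse`.
* `fac1_inj` : `u*w*swap a b = u*w*swap a' b'` gives `swap a b = swap a' b'`, `a < b`, `a' < b'`, so `a = a'`, `b = b'`; `w a < w b` or `w b < w a` decides the case.
* `exists_fac1` : `hasse_split`; `p = (u * swap (w a) (w b), w)` resp. `(u, w * swap a b)` (`CMT.cov_of_hasse`).
* `exists_fac1_ge` : `CMT.exists_cov`.
-/

open MvPolynomial

noncomputable section

namespace CE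

open CMT

variable {n : ℕ} {u w : Equiv.Perm (Fin n)}

theorem scov_ii (w : Equiv.Perm (Fin n)) (j : Fin n) : w⁻¹ (w j) = j := w.symm_apply_apply j

theorem scov_ad (had : AD u w) {a b : Fin n} (h1 : w a < w b) (h2 : u (w b) < u (w a)) :
    a < b := by
  have h := had _ _ h1 h2
  rwa [scov_ii, scov_ii] at h

theorem hasse_split (had : AD u w) {a b : Fin n} (h : Hasse (u * w) a b) :
    (w a < w b ∧ Hasse u (w a) (w b)) ∨ (w b < w a ∧ Hasse w a b) := by
  obtain ⟨h1, h2, h3⟩ := h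
  replace h2 : u (w b) < u (w a) := h2
  replace h3 : ∀ c, a < c → c < b → ¬ (u (w b) < u (w c) ∧ u (w c) < u (w a)) := h3
  rcases lt_trichotomy (w a) (w b) with h4 | h4 | h4
  · left
    refine ⟨h4, h4, h2, fun c hc1 hc2 ⟨hc3, hc4⟩ => ?_⟩
    obtain ⟨c', rfl⟩ := w.surjective c
    exact h3 c' (scov_ad had hc1 hc4) (scov_ad had hc2 hc3) ⟨hc3, hc4⟩
  · exact absurd (w.injective h4) h1.ne
  · right
    refine ⟨h4, h1, h4, fun c hc1 hc2 ⟨hc3, hc4⟩ => ?_⟩
    apply h3 c hc1 hc2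
    constructor
    · rcases lt_trichotomy (u (w b)) (u (w c)) with h5 | h5 | h5
      · exact h5
      · exact absurd (w.injective (u.injective h5)) hc2.ne'
      · exact absurd (scov_ad had hc3 h5) (not_lt.2 hc2.le)
    · rcases lt_trichotomy (u (w c)) (u (w a)) with h5 | h5 | h5
      · exact h5
      · exact absurd (w.injective (u.injective h5)) hc1.ne'
      · exact absurd (scov_ad had hc4 h5) (not_lt.2 hc1.le)

theorem fac1_hasse (hne : NE u w) {p : Equiv.Perm (Fin n) × Equiv.Perm (Fin n)}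
    (hp : Fac1 u w p) : ∃ a b : Fin n, Hasse (u * w) a b ∧ p.1 * p.2 = u * w * Equiv.swap a b ∧
      ((p.2 = w ∧ w a < w b ∧ Hasse u (w a) (w b) ∧ p.1 = u * Equiv.swap (w a) (w b)) ∨
        (p.1 = u ∧ w b < w a ∧ Hasse w a b ∧ p.2 = w * Equiv.swap a b)) := by
  have hadp := hne.2 p hp
  have had := hne.1
  obtain ⟨x, y⟩ := p
  simp only at hadp ⊢
  rcases hp with ⟨hc, hw⟩ | ⟨hu, hc⟩
  · simp only at hc hw
    obtain ⟨i, j, hH, rfl⟩ := hasse_of_cov hc
    subst hw
    obtain ⟨a, rfl⟩ := y.surjective i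
    obtain ⟨b, rfl⟩ := y.surjective j
    obtain ⟨h1, h2, h3⟩ := id hH
    have hab := scov_ad had h1 h2
    refine ⟨a, b, ⟨hab, h2, fun c hc1 hc2 ⟨hc3, hc4⟩ => ?_⟩, ?_, Or.inl ⟨rfl, h1, hH, rfl⟩⟩
    · replace hc3 : u (y b) < u (y c) := hc3
      replace hc4 : u (y c) < u (y a) := hc4
      have hca : y c ≠ y a := fun h => hc1.ne' (y.injective h)
      have hcb : y c ≠ y b := fun h => hc2.ne (y.injective h)
      have ea : (u * Equiv.swap (y a) (y b)) (y a) = u (y b) := by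
        rw [Equiv.Perm.mul_apply, Equiv.swap_apply_left]
      have eb : (u * Equiv.swap (y a) (y b)) (y b) = u (y a) := by
        rw [Equiv.Perm.mul_apply, Equiv.swap_apply_right]
      have ec : (u * Equiv.swap (y a) (y b)) (y c) = u (y c) := by
        rw [Equiv.Perm.mul_apply, Equiv.swap_apply_of_ne_of_ne hca hcb]
      rcases lt_or_gt_of_ne hca with h5 | h5
      · have := scov_ad hadp h5 (by rw [ea, ec]; exact hc3)
        exact lt_asymm this hc1
      · rcases lt_or_gt_of_ne hcb with h6 | h6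
        · exact h3 _ h5 h6 ⟨hc3, hc4⟩
        · have := scov_ad hadp h6 (by rw [eb, ec]; exact hc4)
          exact lt_asymm this hc2
    · rw [mul_assoc, mul_assoc, Equiv.mul_swap_eq_swap_mul]
  · simp only at hc hu
    obtain ⟨a, b, hH, rfl⟩ := hasse_of_cov hc
    subst hu
    obtain ⟨h1, h2, h3⟩ := id hH
    have hu : x (w b) < x (w a) := by
      rcases lt_trichotomy (x (w b)) (x (w a)) with h5 | h5 | h5
      · exact h5
      · exact absurd (w.injective (x.injective h5)) h1.ne'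
      · exact absurd (scov_ad had h2 h5) (not_lt.2 h1.le)
    refine ⟨a, b, ⟨h1, hu, fun c hc1 hc2 ⟨hc3, hc4⟩ => ?_⟩, by rw [mul_assoc],
      Or.inr ⟨rfl, h2, hH, rfl⟩⟩
    replace hc3 : x (w b) < x (w c) := hc3
    replace hc4 : x (w c) < x (w a) := hc4
    have ea : (w * Equiv.swap a b) a = w b := by
      rw [Equiv.Perm.mul_apply, Equiv.swap_apply_left]
    have eb : (w * Equiv.swap a b) b = w a := by
      rw [Equiv.Perm.mul_apply, Equiv.swap_apply_right]
    have ec : (w * Equiv.swap a b) c = w c := by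
      rw [Equiv.Perm.mul_apply, Equiv.swap_apply_of_ne_of_ne hc1.ne' hc2.ne]
    have hca : w c ≠ w a := fun h => hc1.ne' (w.injective h)
    have hcb : w c ≠ w b := fun h => hc2.ne (w.injective h)
    rcases lt_or_gt_of_ne hcb with h5 | h5
    · have := scov_ad (a := c) (b := a) hadp (by rw [ea, ec]; exact h5)
        (by rw [ea, ec]; exact hc3)
      exact lt_asymm this hc1
    · rcases lt_or_gt_of_ne hca with h6 | h6
      · exact h3 _ hc1 hc2 ⟨h5, h6⟩
      · have := scov_ad (a := b) (b := c) hadp (by rw [eb, ec]; exact h6)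
          (by rw [eb, ec]; exact hc4)
        exact lt_asymm this hc2

theorem fac1_cov (hne : NE u w) {p : Equiv.Perm (Fin n) × Equiv.Perm (Fin n)}
    (hp : Fac1 u w p) : cov (p.1 * p.2) (u * w) := by
  obtain ⟨a, b, h1, h2, -⟩ := fac1_hasse hne hp
  rw [h2]
  exact cov_of_hasse h1

theorem scov_swap {a b a' b' : Fin n} (h : Equiv.swap a b = Equiv.swap a' b') (h1 : a < b)
    (h2 : a' < b') : a = a' ∧ b = b' := by
  have h3 := congrArg (fun f : Equiv.Perm (Fin n) => f a) h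
  simp only [Equiv.swap_apply_left] at h3
  by_cases ha : a = a'
  · rw [ha, Equiv.swap_apply_left] at h3
    exact ⟨ha, h3⟩
  · by_cases hb : a = b'
    · rw [hb, Equiv.swap_apply_right] at h3
      rw [hb, h3] at h1
      exact absurd h1 (not_lt.2 h2.le)
    · rw [Equiv.swap_apply_of_ne_of_ne ha hb] at h3
      exact absurd h3 h1.ne'

theorem fac1_inj (hne : NE u w) {p p' : Equiv.Perm (Fin n) × Equiv.Perm (Fin n)}
    (hp : Fac1 u w p) (hp' : Fac1 u w p') (h : p.1 * p.2 = p'.1 * p'.2) : p = p' := by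
  obtain ⟨a, b, h1, h2, h3⟩ := fac1_hasse hne hp
  obtain ⟨a', b', h1', h2', h3'⟩ := fac1_hasse hne hp'
  rw [h2, h2'] at h
  obtain ⟨rfl, rfl⟩ := scov_swap (mul_left_cancel h) h1.1 h1'.1
  rcases h3 with ⟨e1, e2, -, e3⟩ | ⟨e1, e2, -, e3⟩
  · rcases h3' with ⟨f1, f2, -, f3⟩ | ⟨f1, f2, -, f3⟩
    · exact Prod.ext (e3.trans f3.symm) (e1.trans f1.symm)
    · exact absurd e2 (not_lt.2 f2.le)
  · rcases h3' with ⟨f1, f2, -, f3⟩ | ⟨f1, f2, -, f3⟩
    · exact absurd e2 (not_lt.2 f2.le)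
    · exact Prod.ext (e1.trans f1.symm) (e3.trans f3.symm)

theorem exists_fac1 (had : AD u w) {a b : Fin n} (h : Hasse (u * w) a b) :
    ∃ p, Fac1 u w p ∧ p.1 * p.2 = u * w * Equiv.swap a b := by
  rcases hasse_split had h with ⟨h1, h2⟩ | ⟨h1, h2⟩
  · exact ⟨(u * Equiv.swap (w a) (w b), w), Or.inl ⟨cov_of_hasse h2, rfl⟩, by
      simp only
      rw [mul_assoc, mul_assoc, Equiv.mul_swap_eq_swap_mul]⟩
  · exact ⟨(u, w * Equiv.swap a b), Or.inr ⟨rfl, cov_of_hasse h2⟩, by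
      simp only
      rw [mul_assoc]⟩

theorem exists_fac1_ge {u1 w1 : Equiv.Perm (Fin n)} (hu : ble u1 u) (hw : ble w1 w)
    (h : (u1, w1) ≠ (u, w)) : ∃ p, Fac1 u w p ∧ ble u1 p.1 ∧ ble w1 p.2 := by
  by_cases h1 : u1 = u
  · have h2 : w1 ≠ w := fun h2 => h (by rw [h1, h2])
    obtain ⟨v', h3, h4⟩ := exists_cov hw h2
    exact ⟨(u, v'), Or.inr ⟨rfl, h4⟩, hu, h3⟩
  · obtain ⟨v', h3, h4⟩ := exists_cov hu h1
    exact ⟨(v', w), Or.inl ⟨h4, rfl⟩, h3, hw⟩

end CE
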