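import Pool.Agent.H43.CE.Z.GCX
import Pool.Agent.H43.CE.Z.PPZ
import Pool.Agent.H43.CE.S.Cov

/-!
# CE, job S-Curve : a curve through a point of a divisor

Compare `CMT.curve` (CM/A/A7.lean).  `Pres I p.1` by `pres_of_ble`.  `z0 ∈ E1 I p.1 p.2`: `lowMat (z0 ∘ inl) = b * permMat (p.1*p.2) * b'`, `z0 ∘ inr = (bdg (bk I) b).mulVec x'`, `x'` supported in `I.image p.1`.
`fac1_hasse`: positions `α < β`, `p.1 * p.2 = u * w * swap α β =: v'`, `v = u * w = v' * swap α β`, `v' α = v β < v α = v' β`.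
Curve: `Gm(c) = b * permMat v' * transvection β α c * b'`, `G = b.map C * permMat v' * transvection β α X * b'.map C` over `ℂ[X]`, `G(0) = lowMat (z0 ∘ inl)`.
Case 1: `p.2 = w`, `p.1 = u * swap i j`, `i = w α < j = w β`, `p.1 i = u j < u i = p.1 j`.  `permMat v' * transvection β α c = permMat p.1 * transvection j i c * permMat w` (`permMat_mul`, `permMat_transv`: `w β = j`, `w α = i`).
  `G1(c) = b * permMat p.1 * transvection j i c`, in `Cell (p.1 * swap i j) = Cell u` for `c ≠ 0` (`CMT.mem_cell_curve` with `b2 = 1`), `g2 = permMat w * b' ∈ Cell w`, `G = G1 * g2`.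
  `l i' = x' (p.1 i')` (zero for `i' ∉ I`), `xs j = ((bdg (bk I) G1).mulVec (C ∘ l)) j` over `ℂ[X]`; at `c = 0`: `(bdg (bk I) (b * permMat p.1)).mulVec l = (bdg (bk I) b).mulVec x'` (`bdg_col` with `c = 1`, `x'` supported in
  `I.image p.1`; as in `zm_eq_pp`).
Case 2: `p.1 = u`, `p.2 = w * swap α β`, `p.2 α = w β < w α = p.2 β`.  `g1 = b * permMat u`, `G2(c) = permMat p.2 * transvection β α c * b' ∈ Cell w` for `c ≠ 0`, `G = g1 * G2`.  `l i' = x' (u i')`, `xs j = C (z0 (inr j))` constant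
  `= ((bdg (bk I) g1).mulVec l) j`.
In both cases, for `c ≠ 0` and `G(c) = lowMat z * T`: `lowMat z = g1(c) * (g2(c) * T⁻¹)`, so the point is in `Zc I u w = E1 I u w` (`zc_eq_E1`).  `generic_curveX` with `V = E1 I u w` gives `φ` with the first two properties
(`z0 = Sum.elim (z0 ∘ inl) (z0 ∘ inr)`).
Third: `¬ ∀ i, rk v' i k = rk v i k` gives `α < k ≤ β` (`CMT.rk_swap_of_not_mem`, with `v' = v * swap α β`).  Then as at the end of the proof of `CMT.curve`: `φ (inX (pmnr 1 v k)) = mnr v k (lowMat (φ ∘ X ∘ inl))`,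
`G.map coe = lowMat .. * U`, `CMT.mnr_mul_upperR`, `CMT.mnr_curve` (for `v'`, `α`, `β`, `b`, `b'`).
-/

open MvPolynomial

noncomputable section

namespace CE

open CMT

variable {n : ℕ} {I : Finset (Fin n)} {u w : Equiv.Perm (Fin n)}

theorem Curve_transv {R S : Type*} [CommRing R] [CommRing S] (f : R →+* S) (a b : Fin n)
    (c : R) : (Matrix.transvection a b c).map f = Matrix.transvection a b (f c) := by
  ext i j
  simp only [Matrix.map_apply, Matrix.transvection, Matrix.add_apply, Matrix.one_apply,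
    Matrix.single_apply]
  split_ifs <;> simp

theorem Curve_evalC (B : Matrix (Fin n) (Fin n) ℂ) (c : ℂ) :
    (B.map Polynomial.C).map (Polynomial.evalRingHom c) = B := by
  ext i j
  simp

theorem Curve_eval (v' : Equiv.Perm (Fin n)) (a b : Fin n) (b1 b2 : Matrix (Fin n) (Fin n) ℂ)
    (c : ℂ) : (b1.map Polynomial.C * permMat (Polynomial ℂ) v' *
      Matrix.transvection b a Polynomial.X * b2.map Polynomial.C).map (Polynomial.evalRingHom c) =
      b1 * permMat ℂ v' * Matrix.transvection b a c * b2 := by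
  rw [Matrix.map_mul, Matrix.map_mul, Matrix.map_mul, permMat_map, Curve_transv, Curve_evalC,
    Curve_evalC, Polynomial.coe_evalRingHom, Polynomial.eval_X]

theorem Curve_supp {q : Equiv.Perm (Fin n)} {x' : Fin n → ℂ}
    (hx' : ∀ j, j ∉ I.image q → x' j = 0) (i : Fin n) (hi : i ∉ I) : x' (q i) = 0 := by
  apply hx'
  intro h
  obtain ⟨k, hk, he⟩ := Finset.mem_image.1 h
  exact hi (q.injective he ▸ hk)

theorem Curve_col {q : Equiv.Perm (Fin n)} (hp : Pres I q) {b : Matrix (Fin n) (Fin n) ℂ}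
    (hb : IsUpper b) {x' : Fin n → ℂ} (hx' : ∀ j, j ∉ I.image q → x' j = 0) :
    (bdg (bk I) (b * permMat ℂ q)).mulVec (fun i => x' (q i)) =
      (bdg (bk I) b).mulVec x' := by
  funext j
  unfold Matrix.mulVec dotProduct
  rw [← Equiv.sum_comp q (fun m => bdg (bk I) b j m * x' m)]
  refine Finset.sum_congr rfl fun i _ => ?_
  show bdg (bk I) (b * permMat ℂ q) j i * x' (q i) = bdg (bk I) b j (q i) * x' (q i)
  by_cases hi : i ∈ I
  · have h := bdg_col hp hb isUpper_one hi j
    rw [Matrix.mul_one, Matrix.one_apply_eq, one_mul] at h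
    rw [h]
  · rw [Curve_supp hx' i hi, mul_zero, mul_zero]

/-- the second component of the curve -/
theorem Curve_data (hp : Pres I u) {p : Equiv.Perm (Fin n) × Equiv.Perm (Fin n)}
    (hf : Fac1 u w p) {b b' : Matrix (Fin n) (Fin n) ℂ} (hb : IsUpper b) (hb' : IsUpper b')
    {x' : Fin n → ℂ} (hx' : ∀ j, j ∉ I.image p.1 → x' j = 0) {a c0 : Fin n} (hac : a < c0)
    (hcase : (p.2 = w ∧ w a < w c0 ∧ Hasse u (w a) (w c0) ∧
      p.1 = u * Equiv.swap (w a) (w c0)) ∨
        (p.1 = u ∧ w c0 < w a ∧ Hasse w a c0 ∧ p.2 = w * Equiv.swap a c0)) :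
    ∃ xs : Fin n → Polynomial ℂ,
      (∀ j, (xs j).eval 0 = ((bdg (bk I) b).mulVec x') j) ∧
      ∀ c : ℂ, c ≠ 0 → ∃ g1 ∈ Cell u, ∃ g2 ∈ Cell w, ∃ l : Fin n → ℂ, (∀ j, j ∉ I → l j = 0) ∧
        b * permMat ℂ (p.1 * p.2) * Matrix.transvection c0 a c * b' = g1 * g2 ∧
        (fun j => (xs j).eval c) = (bdg (bk I) g1).mulVec l := by
  have hp1 : Pres I p.1 := by
    rcases hf with h | h
    · exact pres_of_ble h.1.1 hp
    · rw [h.1]
      exact hp
  have hcol := Curve_col hp1 hb hx'
  rcases hcase with ⟨h2, hlt, hH, h1⟩ | ⟨h1, hlt, hH, h2⟩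
  · have hu : p.1 * Equiv.swap (w a) (w c0) = u := by
      rw [h1, mul_assoc, Equiv.swap_mul_self, mul_one]
    have hv : p.1 (w a) < p.1 (w c0) := by
      rw [h1, Equiv.Perm.mul_apply, Equiv.Perm.mul_apply, Equiv.swap_apply_left,
        Equiv.swap_apply_right]
      exact hH.2.1
    obtain ⟨xs, hxs⟩ : ∃ xs : Fin n → Polynomial ℂ, xs =
        (bdg (bk I) (b.map Polynomial.C * permMat (Polynomial ℂ) p.1 *
          Matrix.transvection (w c0) (w a) Polynomial.X)).mulVec
          (fun i => Polynomial.C (x' (p.1 i))) := ⟨_, rfl⟩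
    have hev : ∀ c : ℂ, (fun j => (xs j).eval c) =
        (bdg (bk I) (b * permMat ℂ p.1 * Matrix.transvection (w c0) (w a) c)).mulVec
          (fun i => x' (p.1 i)) := by
      intro c
      funext j
      have h := RingHom.map_mulVec (Polynomial.evalRingHom c)
        (bdg (bk I) (b.map Polynomial.C * permMat (Polynomial ℂ) p.1 *
          Matrix.transvection (w c0) (w a) Polynomial.X))
        (fun i => Polynomial.C (x' (p.1 i))) j
      rw [bdg_map, Matrix.map_mul, Matrix.map_mul, permMat_map, Curve_transv, Curve_evalC,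
        ← hxs, Polynomial.coe_evalRingHom, Polynomial.eval_X] at h
      have h3 : (Polynomial.eval c ∘ fun i => Polynomial.C (x' (p.1 i))) =
          fun i => x' (p.1 i) := by
        funext i
        simp
      rw [h3] at h
      exact h
    refine ⟨xs, fun j => ?_, fun c hc => ?_⟩
    · have h := congrFun (hev 0) j
      rw [Matrix.transvection_zero, Matrix.mul_one, hcol] at h
      exact h
    · refine ⟨b * permMat ℂ p.1 * Matrix.transvection (w c0) (w a) c, ?_, permMat ℂ w * b', ?_,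
        fun i => x' (p.1 i), fun i hi => Curve_supp hx' i hi, ?_, hev c⟩
      · have h := mem_cell_curve hlt hv hb isUpper_one hc
        rw [Matrix.mul_one, hu] at h
        exact h
      · exact cell_mul_right hb' (permMat_mem_cell w)
      · have h := permMat_transv (R := ℂ) w c0 a c
        rw [h2, permMat_mul]
        calc b * (permMat ℂ p.1 * permMat ℂ w) * Matrix.transvection c0 a c * b'
            = b * permMat ℂ p.1 * (permMat ℂ w * Matrix.transvection c0 a c) * b' := by
              simp only [Matrix.mul_assoc]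
          _ = _ := by
              rw [h]
              simp only [Matrix.mul_assoc]
  · have hw : p.2 * Equiv.swap a c0 = w := by
      rw [h2, mul_assoc, Equiv.swap_mul_self, mul_one]
    have hv : p.2 a < p.2 c0 := by
      rw [h2, Equiv.Perm.mul_apply, Equiv.Perm.mul_apply, Equiv.swap_apply_left,
        Equiv.swap_apply_right]
      exact hlt
    refine ⟨fun j => Polynomial.C (((bdg (bk I) b).mulVec x') j), fun j => ?_, fun c hc => ?_⟩
    · rw [Polynomial.eval_C]
    · refine ⟨b * permMat ℂ u, ?_, permMat ℂ p.2 * Matrix.transvection c0 a c * b', ?_,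
        fun i => x' (p.1 i), fun i hi => Curve_supp hx' i hi, ?_, ?_⟩
      · exact cell_mul_left hb (permMat_mem_cell u)
      · have h := mem_cell_curve hac hv isUpper_one hb' hc
        rw [Matrix.one_mul, hw] at h
        exact h
      · rw [h1, permMat_mul]
        simp only [Matrix.mul_assoc]
      · rw [← h1, hcol]
        funext j
        rw [Polynomial.eval_C]

theorem curveE (hne : NE u w) (hp : Pres I u)
    {p : Equiv.Perm (Fin n) × Equiv.Perm (Fin n)} (hf : Fac1 u w p)
    {z0 : (Low n ⊕ Fin n) → ℂ} (hz : z0 ∈ E1 I p.1 p.2) :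
    ∃ φ : MvPolynomial (Low n ⊕ Fin n) ℂ →+* PowerSeries ℂ,
      (∀ f, PowerSeries.constantCoeff (φ f) = aeval z0 f) ∧
      (∀ f ∈ VI (E1 I u w), φ f = 0) ∧
      ∀ (k : ℕ) (hk : k ≤ n), (¬ ∀ i, rk (p.1 * p.2) i k = rk (u * w) i k) →
        PowerSeries.coeff 1 (φ (inX (pmnr 1 (u * w) k hk))) ≠ 0 := by
  obtain ⟨b, b', x', hb, hb', hx', -, h1, h2⟩ := hz
  obtain ⟨a, c0, hH, hv, hcase⟩ := fac1_hasse hne hf
  have hac : a < c0 := hH.1
  obtain ⟨xs, hxs0, hxsc⟩ := Curve_data hp hf hb hb' hx' hac hcase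
  have hback : p.1 * p.2 * Equiv.swap a c0 = u * w := by
    rw [hv, mul_assoc (u * w), Equiv.swap_mul_self, mul_one]
  have hvlt : (p.1 * p.2) a < (p.1 * p.2) c0 := by
    rw [hv, Equiv.Perm.mul_apply (u * w), Equiv.Perm.mul_apply (u * w), Equiv.swap_apply_left,
      Equiv.swap_apply_right]
    exact hH.2.1
  have h1' : lowMat (fun e => z0 (Sum.inl e)) = b * permMat ℂ (p.1 * p.2) * b' := by
    have h3 : permMat ℂ 1 * lowMat (fun e => z0 (Sum.inl e)) =
      b * permMat ℂ (p.1 * p.2) * b' := h1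
    rw [permMat_one, Matrix.one_mul] at h3
    exact h3
  obtain ⟨G, hG⟩ : ∃ G : Matrix (Fin n) (Fin n) (Polynomial ℂ), G =
      b.map Polynomial.C * permMat (Polynomial ℂ) (p.1 * p.2) *
      Matrix.transvection c0 a Polynomial.X * b'.map Polynomial.C := ⟨_, rfl⟩
  have hev : ∀ c : ℂ, G.map (Polynomial.evalRingHom c) =
      b * permMat ℂ (p.1 * p.2) * Matrix.transvection c0 a c * b' := by
    intro c
    rw [hG]
    exact Curve_eval (p.1 * p.2) a c0 b b' c
  have hz0 : (Sum.elim (fun e => z0 (Sum.inl e)) (fun j => (xs j).eval 0) :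
      (Low n ⊕ Fin n) → ℂ) = z0 := by
    funext e
    rcases e with e | j
    · rfl
    · show (xs j).eval 0 = z0 (Sum.inr j)
      rw [hxs0 j]
      exact (congrFun h2 j).symm
  obtain ⟨φ, hφ0, hφV, -, -, U, hU1, hU2, hU⟩ := generic_curveX G xs
    (fun e => z0 (Sum.inl e))
    (by rw [hev, Matrix.transvection_zero, Matrix.mul_one, ← h1'])
    (E1 I u w)
    (by
      intro c hc z T hT h
      rw [← zc_eq_E1 hne.1 hp]
      obtain ⟨g1, hg1, g2, hg2, l, hl, h3, h4⟩ := hxsc c hc
      have hT' : T * T⁻¹ = 1 := Matrix.mul_nonsing_inv _ (isUnit_iff_ne_zero.mpr hT.det_ne)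
      refine ⟨g1, hg1, g2 * T⁻¹, cell_mul_right hT.inv hg2, l, hl, ?_, ?_⟩
      · show lowMat z = g1 * (g2 * T⁻¹)
        rw [← Matrix.mul_assoc, ← h3, ← hev, h, Matrix.mul_assoc, hT', Matrix.mul_one]
      · exact h4)
  rw [hz0] at hφ0
  refine ⟨φ, hφ0, hφV, fun k hk hrk hzero => ?_⟩
  obtain ⟨hak, hkb⟩ : a.val < k ∧ k ≤ c0.val := by
    by_contra hcon
    apply hrk
    intro i
    rw [hv]
    exact rk_swap_of_not_mem hac k hcon i
  obtain ⟨d, hd, hcurve⟩ := mnr_curve hac hvlt hb hb' hk hak hkb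
  rw [← hG, hback] at hcurve
  have e1 : φ (inX (pmnr 1 (u * w) k hk)) =
      mnr (u * w) k hk (lowMat (fun e : Low n => φ (X (Sum.inl e)))) := by
    have h3 := mnr_map (φ.comp (rename Sum.inl :
      MvPolynomial (Low n) ℂ →ₐ[ℂ] MvPolynomial (Low n ⊕ Fin n) ℂ).toRingHom) (u * w) k hk
      (permMat _ 1 * lowMat (fun e : Low n => (X e : MvPolynomial (Low n) ℂ)))
    rw [Matrix.map_mul, permMat_map, lowMat_map, permMat_one (R := PowerSeries ℂ),
      Matrix.one_mul] at h3
    have h4 : (fun e : Low n => (φ.comp (rename Sum.inl :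
        MvPolynomial (Low n) ℂ →ₐ[ℂ] MvPolynomial (Low n ⊕ Fin n) ℂ).toRingHom) (X e)) =
        fun e => φ (X (Sum.inl e)) := by
      funext e
      show φ (rename Sum.inl (X e)) = _
      rw [rename_X]
    rw [h4] at h3
    exact h3
  have e4 := mnr_map (Polynomial.coeToPowerSeries.ringHom (R := ℂ)) (u * w) k hk G
  rw [hU, mnr_mul_upperR hU1, ← e1, hcurve, map_mul] at e4
  have hu : IsUnit (∏ j : Fin k, U (Fin.castLE hk j) (Fin.castLE hk j)) := by
    rw [IsUnit.prod_univ_iff]
    exact fun j => hU2 _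
  generalize (∏ j : Fin k, U (Fin.castLE hk j) (Fin.castLE hk j)) = uu at e4 hu
  generalize φ (inX (pmnr 1 (u * w) k hk)) = Δ at e4 hzero
  have hu0 : PowerSeries.constantCoeff uu ≠ 0 := by
    have := hu.map (PowerSeries.constantCoeff (R := ℂ))
    exact this.ne_zero
  have e5 : (PowerSeries.X : PowerSeries ℂ) * PowerSeries.C d = Δ * uu := by
    have h3 : Polynomial.coeToPowerSeries.ringHom (Polynomial.X : Polynomial ℂ) =
        (PowerSeries.X : PowerSeries ℂ) := by
      simp
    have h4 : Polynomial.coeToPowerSeries.ringHom (Polynomial.C d : Polynomial ℂ) =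
        (PowerSeries.C d : PowerSeries ℂ) := by
      simp
    rw [← h3, ← h4]
    exact e4
  have e6 : PowerSeries.constantCoeff Δ = 0 := by
    have h3 := congrArg (PowerSeries.constantCoeff (R := ℂ)) e5
    rw [map_mul, map_mul] at h3
    simp only [PowerSeries.constantCoeff_X, zero_mul] at h3
    rcases mul_eq_zero.1 h3.symm with h4 | h4
    · exact h4
    · exact absurd h4 hu0
  have e7 := congrArg (PowerSeries.coeff (R := ℂ) 1) e5
  rw [PowerSeries.coeff_mul] at e7
  simp [PowerSeries.coeff_mul, Finset.Nat.antidiagonal_succ, hzero, e6,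
    PowerSeries.coeff_X, PowerSeries.coeff_C] at e7
  exact hd e7

end CE
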