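import Pool.Agent.H43.CE.S.S1
import Pool.Agent.H43.CE.S.Curve

/-!
# CE, job S-S5 : the minors vanish to order one along the divisors

Exactly as `CMT.pmnr_order_one` (CM/E/E4.lean): let `g = mk G`, `G ∉ VI (E1 I p.1 p.2)` (`mk_mem_QQ`), so there is `z0 ∈ E1 I p.1 p.2` with `aeval z0 G ≠ 0`.  `φ` from `curveE`; it factors through `𝒮`.
`φ` maps `QQ` into `(X)` (constant coefficient = value at `z0`, which is 0 for elements of `VI (E1 I p.1 p.2)`), so `QQ^2` into `(X^2)`; `φ (G * inX (pmnr ..))` has coefficient of `X^1` equal to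
`aeval z0 G * coeff 1 (φ (inX pmnr)) ≠ 0` (its constant coefficient is 0 as `dS k ∈ QQ`).  `dS_mem_QQ` translates `hk`.
-/

open MvPolynomial

noncomputable section

namespace CE

open CMT

variable {n : ℕ} {I : Finset (Fin n)} {u w : Equiv.Perm (Fin n)}

theorem dS_order_one (hne : NE u w) (hp : Pres I u)
    {p : Equiv.Perm (Fin n) × Equiv.Perm (Fin n)} (hf : Fac1 u w p) (k : Fin n)
    (hk : dS I u w k ∈ QQ I u w p) (g : CR (E1 I u w)) (hg : g ∉ QQ I u w p) :
    g * dS I u w k ∉ (QQ I u w p) ^ 2 := by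
  have hrk := (dS_mem_QQ hne hp hf k).1 hk
  have hd0 : inX (pmnr 1 (u * w) k.val k.isLt.le) ∈ VI (E1 I p.1 p.2) :=
    (mk_mem_QQ hne hp hf _).1 hk
  obtain ⟨G, rfl⟩ := Ideal.Quotient.mk_surjective g
  have hG : G ∉ VI (E1 I p.1 p.2) := fun hG => hg ((mk_mem_QQ hne hp hf G).2 hG)
  rw [mem_vanishingIdeal_iff] at hG
  push Not at hG
  obtain ⟨z0, hz0, hG0⟩ := hG
  obtain ⟨φ, h1, h2, h3⟩ := curveE hne hp hf hz0
  have h3' := h3 k.val k.isLt.le hrk
  intro hmem
  have hpow : (QQ I u w p) ^ 2 =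
      ((VI (E1 I p.1 p.2)) ^ 2).map (Ideal.Quotient.mk (VI (E1 I u w))) := by
    unfold QQ
    rw [Ideal.map_pow]
  unfold dS at hmem
  rw [hpow, ← map_mul] at hmem
  obtain ⟨a2, ha2, hab2⟩ := (Ideal.mem_map_iff_of_surjective _
    Ideal.Quotient.mk_surjective).mp hmem
  have hb : G * inX (pmnr 1 (u * w) k.val k.isLt.le) - a2 ∈ VI (E1 I u w) := by
    rw [← Ideal.Quotient.eq, hab2]
  have hφ : φ G * φ (inX (pmnr 1 (u * w) k.val k.isLt.le)) = φ a2 := by
    have := h2 _ hb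
    rw [map_sub, map_mul, sub_eq_zero] at this
    exact this
  have hle : VI (E1 I p.1 p.2) ≤ (Ideal.span {(PowerSeries.X : PowerSeries ℂ)}).comap φ := by
    intro f hf'
    rw [Ideal.mem_comap, Ideal.mem_span_singleton, PowerSeries.X_dvd_iff, h1]
    exact (mem_vanishingIdeal_iff.mp hf') z0 hz0
  have ha2' : φ a2 ∈ Ideal.span {(PowerSeries.X : PowerSeries ℂ) ^ 2} := by
    have h4 : (VI (E1 I p.1 p.2)) ^ 2 ≤
        ((Ideal.span {(PowerSeries.X : PowerSeries ℂ)}) ^ 2).comap φ :=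
      (Ideal.pow_right_mono hle 2).trans (Ideal.le_comap_pow φ 2)
    have h5 := h4 ha2
    rw [Ideal.mem_comap, Ideal.span_singleton_pow] at h5
    exact h5
  rw [Ideal.mem_span_singleton, PowerSeries.X_pow_dvd_iff] at ha2'
  have hc : PowerSeries.coeff 1 (φ a2) = 0 := ha2' 1 (by norm_num)
  rw [← hφ, PowerSeries.coeff_mul] at hc
  have hc0 : PowerSeries.coeff 0 (φ (inX (pmnr 1 (u * w) k.val k.isLt.le))) = 0 := by
    rw [PowerSeries.coeff_zero_eq_constantCoeff_apply, h1]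
    exact (mem_vanishingIdeal_iff.mp hd0) z0 hz0
  have hanti : (Finset.HasAntidiagonal.antidiagonal 1 : Finset (ℕ × ℕ)) = {(0, 1), (1, 0)} := by
    decide
  rw [hanti, Finset.sum_insert (by decide), Finset.sum_singleton, hc0, mul_zero, add_zero,
    PowerSeries.coeff_zero_eq_constantCoeff_apply, h1] at hc
  rcases mul_eq_zero.mp hc with h6 | h6
  · exact hG0 h6
  · exact h3' h6

end CE
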