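import Pool.Agent.H43.CE.Z.Sup
import Pool.Agent.H43.CE.Z.PPZ
import Pool.Agent.H43.CE.N.Ind
import Pool.Agent.H43.CE.S.Cov

/-!
# CE, job S-S1 : first properties of `𝒮 = CR (E1 I u w)` and of the ideals `QQ`

* `inX_mem_iff` : `→`: for `z ∈ SS 1 (u*w)` the point `(z, 0)` is in `E1` (`x' = 0`), `aeval_rename`.  `←`: `inX_mem`.
* `psi_injective` : from `inX_mem_iff` (`psi_mk`, `Ideal.Quotient.eq_zero_iff_mem`).
* `E1_nonempty` : `SS 1 (u*w)` is nonempty (`CMT.SS_nonempty_of_ble`, `CMT.ble_one`).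
* `E1_normal` : `normal_EE` with `bk_mono`, `isId_image`.
* `E1_le` : `zc_eq_E1` twice and `zc_mono`; `Pres I u1` by `pres_of_ble`.
* `mk_mem_QQ` : `Ideal.mem_map_iff_of_surjective`, as `CMT.mk_mem_Pid`.
* `Fac1_le` : `Fac1 u w p → ble p.1 u ∧ ble p.2 w`.
* `QQ_isPrime` : `CR (E1 I u w) / QQ = CR (E1 I p.1 p.2)` is a domain: `VI (E1 I p.1 p.2)` is prime (`E1_normal`), `mk_mem_QQ`; as `CMT.Pid_isPrime`.
* `dS_ne_zero` : `inX_mem_iff` and `CMT.pmnr_ne_zero`.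
* `dS_mem_QQ` : `mk_mem_QQ`, `inX_mem_iff` (for `p`), and `CMT.pmnr_mem_Pid` with `CMT.mk_mem_Pid` (`ble (p.1*p.2) (u*w)` from `fac1_cov`).
* `exists_dS_mem_QQ` : `p.1 * p.2 ≠ u * w` (`fac1_cov`, `CMT.cov_ne`), `CMT.exists_rk_ne` gives `k ≤ n`; `k ≠ n` by `CMT.rk_top`.
-/

open MvPolynomial

noncomputable section

namespace CE

open CMT

variable {n : ℕ} {I : Finset (Fin n)} {u w : Equiv.Perm (Fin n)}

theorem S1_pt {z : Low n → ℂ} (hz : z ∈ SS 1 (u * w)) :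
    (Sum.elim z (fun _ => 0) : (Low n ⊕ Fin n) → ℂ) ∈ E1 I u w := by
  obtain ⟨b, b', hb, hb', h⟩ := hz
  refine ⟨b, b', 0, hb, hb', fun _ _ => rfl, fun j hj => absurd hj (Finset.notMem_empty j), h, ?_⟩
  show (fun _ => (0 : ℂ)) = _
  rw [Matrix.mulVec_zero]
  rfl

theorem inX_mem_iff (f : MvPolynomial (Low n) ℂ) :
    inX f ∈ VI (E1 I u w) ↔ f ∈ VI (SS 1 (u * w)) := by
  constructor
  · intro h
    rw [mem_vanishingIdeal_iff] at h ⊢
    intro z hz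
    have h1 := h _ (S1_pt (I := I) hz)
    rw [inX, aeval_rename] at h1
    exact h1
  · exact inX_mem

theorem psi_injective (I : Finset (Fin n)) (u w : Equiv.Perm (Fin n)) :
    Function.Injective (psi I u w) := by
  rw [injective_iff_map_eq_zero]
  intro x hx
  obtain ⟨f, rfl⟩ := Ideal.Quotient.mk_surjective x
  rw [psi_mk, Ideal.Quotient.eq_zero_iff_mem, inX_mem_iff] at hx
  exact Ideal.Quotient.eq_zero_iff_mem.2 hx

theorem E1_nonempty (I : Finset (Fin n)) (u w : Equiv.Perm (Fin n)) : (E1 I u w).Nonempty := by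
  obtain ⟨z, hz⟩ := SS_nonempty_of_ble (ble_one (u * w))
  exact ⟨_, S1_pt hz⟩

theorem E1_normal (had : AD u w) (hp : Pres I u) : NormalCR (E1 I u w) :=
  normal_EE (bk_mono I) 1 (u * w) (isId_image had hp) (E1_nonempty I u w)

theorem E1_le {u1 w1 : Equiv.Perm (Fin n)} (had : AD u w) (had1 : AD u1 w1) (hp : Pres I u)
    (hu : ble u1 u) (hw : ble w1 w) : VI (E1 I u w) ≤ VI (E1 I u1 w1) := by
  rw [← zc_eq_E1 had hp, ← zc_eq_E1 had1 (pres_of_ble hu hp)]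
  exact zc_mono hu hw

theorem Fac1_le {p : Equiv.Perm (Fin n) × Equiv.Perm (Fin n)} (hp : Fac1 u w p) :
    ble p.1 u ∧ ble p.2 w := by
  rcases hp with ⟨h1, h2⟩ | ⟨h1, h2⟩
  · exact ⟨h1.1, by rw [h2]; exact fun _ _ => le_rfl⟩
  · exact ⟨by rw [h1]; exact fun _ _ => le_rfl, h2.1⟩

theorem E1_le_of_Fac1 (hne : NE u w) (hp : Pres I u)
    {p : Equiv.Perm (Fin n) × Equiv.Perm (Fin n)} (hf : Fac1 u w p) :
    VI (E1 I u w) ≤ VI (E1 I p.1 p.2) :=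
  E1_le hne.1 (hne.2 p hf) hp (Fac1_le hf).1 (Fac1_le hf).2

theorem mk_mem_QQ (hne : NE u w) (hp : Pres I u)
    {p : Equiv.Perm (Fin n) × Equiv.Perm (Fin n)} (hf : Fac1 u w p)
    (f : MvPolynomial (Low n ⊕ Fin n) ℂ) :
    Ideal.Quotient.mk (VI (E1 I u w)) f ∈ QQ I u w p ↔ f ∈ VI (E1 I p.1 p.2) :=
  Ideal.mem_quotient_iff_mem (E1_le_of_Fac1 hne hp hf)

theorem QQ_isPrime (hne : NE u w) (hp : Pres I u)
    {p : Equiv.Perm (Fin n) × Equiv.Perm (Fin n)} (hf : Fac1 u w p) : (QQ I u w p).IsPrime := by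
  have h1 : IsDomain (CR (E1 I p.1 p.2)) :=
    (E1_normal (hne.2 p hf) (pres_of_ble (Fac1_le hf).1 hp)).1
  have h2 : (VI (E1 I p.1 p.2)).IsPrime := (Ideal.Quotient.isDomain_iff_prime _).1 h1
  unfold QQ
  refine Ideal.map_isPrime_of_surjective Ideal.Quotient.mk_surjective ?_
  rw [Ideal.mk_ker]
  exact E1_le_of_Fac1 hne hp hf

theorem dS_ne_zero (I : Finset (Fin n)) (u w : Equiv.Perm (Fin n)) (k : Fin n) :
    dS I u w k ≠ 0 := by
  intro h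
  rw [dS, Ideal.Quotient.eq_zero_iff_mem, inX_mem_iff, ← Ideal.Quotient.eq_zero_iff_mem] at h
  exact pmnr_ne_zero (SS_nonempty_of_ble (ble_one (u * w))) k.val k.isLt.le h

/-- which minors vanish on a divisor -/
theorem dS_mem_QQ (hne : NE u w) (hp : Pres I u)
    {p : Equiv.Perm (Fin n) × Equiv.Perm (Fin n)} (hf : Fac1 u w p) (k : Fin n) :
    dS I u w k ∈ QQ I u w p ↔ ¬ ∀ i, rk (p.1 * p.2) i k.val = rk (u * w) i k.val := by
  have hb : ble (p.1 * p.2) (u * w) := (fac1_cov hne hf).1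
  rw [dS, mk_mem_QQ hne hp hf, inX_mem_iff, ← mk_mem_Pid hb]
  exact pmnr_mem_Pid hb (SS_nonempty_of_ble (ble_one (p.1 * p.2))) k.val k.isLt.le

/-- some minor vanishes on a divisor -/
theorem exists_dS_mem_QQ (hne : NE u w) (hp : Pres I u)
    {p : Equiv.Perm (Fin n) × Equiv.Perm (Fin n)} (hf : Fac1 u w p) :
    ∃ k : Fin n, dS I u w k ∈ QQ I u w p := by
  obtain ⟨k, hk, h⟩ := exists_rk_ne (cov_ne (fac1_cov hne hf))
  have hkn : k ≠ n := by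
    rintro rfl
    exact h (fun i => rk_top _ _ i)
  exact ⟨⟨k, lt_of_le_of_ne hk hkn⟩, (dS_mem_QQ hne hp hf _).2 h⟩

end CE
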