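import Pool.Agent.H43.CE.Defs

/-!
# CE, job S-DL : divisibility in a normal domain

Compare `CMT.div_lemma` (CM/E/Div.lean).
Fix `i` and suppose `Δ k0 ∈ Q i` for some `k0`; `π = Δ k0`.
(1) `CMT.unif_of_sq` (C/Unif.lean): `∀ x ∈ Q i, ∃ s ∉ Q i, π ∣ s * x`.  So by induction on `m`: `∀ x ∈ (Q i)^m, ∃ s ∉ Q i, π^m ∣ s * x` (for a sum of products use the product of the `s`; e.g. the ideal
    `{x | ∃ s ∉ Q i, π^m ∣ s * x}` contains all products `x1 * x2`, `x1 ∈ Q i`, `x2 ∈ (Q i)^(m-1)`).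
(2) for `k` with `Δ k ∈ Q i`: `∃ s ∉ Q i, ∃ t ∉ Q i, s * Δ k = π * t`: `s` from (1); `t ∈ Q i` would give `s * Δ k ∈ (Q i)^2`, contradiction to `hord`.
(3) so with `A = ∑_{k, Δ k ∈ Q i} α k`, `B = ∑ β k`: `s * ∏ Δ^α = π^A * t`, `s' * ∏ Δ^β = π^B * t'`, `s, t, s', t' ∉ Q i` (`Δ k ∉ Q i` contributes to `s`, `t`), `s'' * g = π^(m i) * g'`.
    `A ≤ m i + B`.  So `∏ Δ^α ∣ (unit outside Q i) * ∏ Δ^β * g`: `∏ Δ^α * (s * s' * s'' ..)`: precisely `s' * s'' * (∏ Δ^β * g) * t = π^(B + m i) * t' * g' * t = π^(B + m i - A) * t' * g' * (s * ∏ Δ^α)`.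
`∃ r`: `CMT.N1` (C/N1.lean) with `y = ∏ Δ^α ≠ 0`, `x = ∏ Δ^β * g`: at a height one prime `Q'` containing no `Δ k`: `s = ∏ Δ^α ∉ Q'`.  If it contains `Δ k0` then `Q' = Q i` by `hQ` and (3).
`r ∈ Q i` when `A < m i + B`: if no `Δ k ∈ Q i` then `A = B = 0`, `m i > 0`, `g ∈ Q i`, and `∏ Δ^α * r = ∏ Δ^β * g ∈ Q i`, `∏ Δ^α ∉ Q i`.  Otherwise `s' * s'' * t * ∏ Δ^α * r = π^(B + m i - A) * t' * g' * s * ∏ Δ^α`, cancel `∏ Δ^α`:
`s' * s'' * t * r ∈ Q i`.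
-/

open MvPolynomial

noncomputable section

namespace CE

open CMT

section
variable {R : Type} [CommRing R]

theorem DL_zero (Q : Ideal R) (v : R → ℕ∞) (hm : ∀ x y, v (x * y) = v x + v y)
    (hv0 : ∀ x, v x = 0 ↔ x ∉ Q) : v 0 = ⊤ := by
  have h1 : v 0 = v 0 + v 0 := by
    rw [← hm, mul_zero]
  have h2 : v 0 ≠ 0 := fun h => (hv0 0).1 h Q.zero_mem
  by_contra h3
  obtain ⟨a, ha⟩ := ENat.ne_top_iff_exists.1 h3
  rw [← ha] at h1 h2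
  have h4 : a = a + a := by exact_mod_cast h1
  apply h2
  have h5 : a = 0 := by omega
  rw [h5]
  rfl

theorem DL_add (Q : Ideal R) (v : R → ℕ∞) (hm : ∀ x y, v (x * y) = v x + v y)
    (hv0 : ∀ x, v x = 0 ↔ x ∉ Q) (hd : ∀ x y, v x ≤ v y → ∃ s, s ∉ Q ∧ x ∣ s * y) (t : ℕ∞)
    (x y : R) (hx : t ≤ v x) (hy : t ≤ v y) : t ≤ v (x + y) := by
  wlog hxy : v x ≤ v y generalizing x y
  · rw [add_comm]
    exact this y x hy hx (le_of_not_ge hxy)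
  obtain ⟨s, hs, c, hc⟩ := hd x y hxy
  have h1 : s * (x + y) = x * (s + c) := by
    rw [mul_add, hc]
    ring
  have h2 := congrArg v h1
  rw [hm, hm, (hv0 s).2 hs, zero_add] at h2
  rw [h2]
  exact hx.trans le_self_add

theorem DL_pow (Q : Ideal R) (v : R → ℕ∞) (hm : ∀ x y, v (x * y) = v x + v y)
    (hv0 : ∀ x, v x = 0 ↔ x ∉ Q) (hd : ∀ x y, v x ≤ v y → ∃ s, s ∉ Q ∧ x ∣ s * y) (m : ℕ)
    (x : R) (hx : x ∈ Q ^ m) : (m : ℕ∞) ≤ v x := by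
  let I : ℕ → Ideal R := fun t =>
    { carrier := {x | (t : ℕ∞) ≤ v x}
      add_mem' := fun {a b} ha hb => DL_add Q v hm hv0 hd t a b ha hb
      zero_mem' := by
        show (t : ℕ∞) ≤ v 0
        rw [DL_zero Q v hm hv0]
        exact le_top
      smul_mem' := by
        intro c a ha
        show (t : ℕ∞) ≤ v (c * a)
        rw [hm]
        exact le_trans ha le_add_self }
  have hI : ∀ t x, x ∈ I t ↔ (t : ℕ∞) ≤ v x := fun t x => Iff.rfl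
  have key : ∀ m, Q ^ m ≤ I m := by
    intro m
    induction m with
    | zero =>
      intro y _
      rw [hI]
      simp
    | succ m ih =>
      rw [pow_succ, Ideal.mul_le]
      intro r hr s hs
      rw [hI, hm]
      push_cast
      refine add_le_add ((hI _ _).1 (ih hr)) ?_
      rw [Order.one_le_iff_ne_zero]
      intro h
      exact (hv0 s).1 h hs
  exact (hI _ _).1 (key m hx)

end

open Classical in
theorem DL_key {R : Type} [CommRing R] [IsDomain R] [IsNoetherianRing R] [IsIntegrallyClosed R]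
    {κ : Type} [Fintype κ] (Δ : κ → R) (Q : Ideal R) (hp : Q.IsPrime) (hh : Q.height = 1)
    (hord : ∀ k, Δ k ∈ Q → ∀ h, h ∉ Q → h * Δ k ∉ Q ^ 2) :
    ∃ v : R → ℕ∞, (∀ x y, v (x * y) = v x + v y) ∧
      (∀ x, v x = 0 ↔ x ∉ Q) ∧ (∀ x y, v x ≤ v y → ∃ s, s ∉ Q ∧ x ∣ s * y) ∧
      (∀ (m : ℕ) x, x ∈ Q ^ m → (m : ℕ∞) ≤ v x) ∧
      ∀ a : κ → ℕ, v (∏ k, Δ k ^ a k) = ((∑ k, (if Δ k ∈ Q then a k else 0) : ℕ) : ℕ∞) := by
  obtain ⟨v, hm, hv1, hv0, hd, hu⟩ := E6_val Q hh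
  have hvk : ∀ k, v (Δ k) = if Δ k ∈ Q then 1 else 0 := by
    intro k
    split_ifs with h
    · exact hu (Δ k) h (hord k h)
    · exact (hv0 _).2 h
  refine ⟨v, hm, hv0, hd, fun m x hx => DL_pow Q v hm hv0 hd m x hx, fun a => ?_⟩
  rw [E6_prod v hm hv1]
  push_cast
  refine Finset.sum_congr rfl fun k _ => ?_
  rw [E6_pow v hm hv1, hvk]
  split_ifs <;> simp

theorem DL {R : Type} [CommRing R] [IsDomain R] [IsNoetherianRing R] [IsIntegrallyClosed R]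
    {κ : Type} [Fintype κ] (Δ : κ → R) (hΔ : ∀ k, Δ k ≠ 0) {ι : Type} [Finite ι]
    (Q : ι → Ideal R) (hp : ∀ i, (Q i).IsPrime) (hh : ∀ i, (Q i).height = 1)
    (hQ : ∀ (P : Ideal R), P.IsPrime → P.height = 1 → ∀ k, Δ k ∈ P → ∃ i, P = Q i)
    (hord : ∀ i k, Δ k ∈ Q i → ∀ h, h ∉ Q i → h * Δ k ∉ (Q i) ^ 2)
    (α β : κ → ℕ) (m : ι → ℕ) (g : R) (hg : ∀ i, g ∈ (Q i) ^ m i)
    (he : ∀ i, ∑ k, (@ite ℕ (Δ k ∈ Q i) (Classical.propDecidable _) (α k) 0) ≤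
      m i + ∑ k, (@ite ℕ (Δ k ∈ Q i) (Classical.propDecidable _) (β k) 0)) :
    ∃ r, (∏ k, Δ k ^ α k) * r = (∏ k, Δ k ^ β k) * g ∧
      ∀ i, ∑ k, (@ite ℕ (Δ k ∈ Q i) (Classical.propDecidable _) (α k) 0) <
        m i + ∑ k, (@ite ℕ (Δ k ∈ Q i) (Classical.propDecidable _) (β k) 0) → r ∈ Q i := by
  have hne : (∏ k, Δ k ^ α k) ≠ 0 :=
    Finset.prod_ne_zero_iff.2 fun k _ => pow_ne_zero _ (hΔ k)
  have hle : ∀ i (v : R → ℕ∞), (∀ x y, v (x * y) = v x + v y) →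
      (∀ (m : ℕ) x, x ∈ Q i ^ m → (m : ℕ∞) ≤ v x) →
      (∀ a : κ → ℕ, v (∏ k, Δ k ^ a k) =
        ((∑ k, (@ite ℕ (Δ k ∈ Q i) (Classical.propDecidable _) (a k) 0) : ℕ) : ℕ∞)) →
      ((m i + ∑ k, (@ite ℕ (Δ k ∈ Q i) (Classical.propDecidable _) (β k) 0) : ℕ) : ℕ∞) ≤
        v ((∏ k, Δ k ^ β k) * g) := by
    intro i v hm hpow hprod
    rw [hm, hprod, Nat.cast_add, add_comm]
    exact add_le_add le_rfl (hpow _ _ (hg i))
  have hdvd : (∏ k, Δ k ^ α k) ∣ (∏ k, Δ k ^ β k) * g := by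
    refine N1 _ _ hne fun Q' hQ' hQ'1 => ?_
    by_cases hex : ∃ i, Q' = Q i
    · obtain ⟨i, rfl⟩ := hex
      obtain ⟨v, hm, hv0, hd, hpow, hprod⟩ := DL_key Δ (Q i) (hp i) (hh i) (hord i)
      refine hd _ _ ?_
      refine le_trans ?_ (hle i v hm hpow hprod)
      rw [hprod]
      exact_mod_cast he i
    · refine ⟨∏ k, Δ k ^ α k, ?_, dvd_mul_right _ _⟩
      intro hc
      obtain ⟨k, -, hk⟩ := (hQ'.prod_mem_iff).1 hc
      exact hex (hQ Q' hQ' hQ'1 k (hQ'.mem_of_pow_mem _ hk))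
  obtain ⟨r, hr⟩ := hdvd
  refine ⟨r, hr.symm, fun i hi => ?_⟩
  obtain ⟨v, hm, hv0, hd, hpow, hprod⟩ := DL_key Δ (Q i) (hp i) (hh i) (hord i)
  by_contra hc
  have h0 := (hv0 r).2 hc
  have h1 := hle i v hm hpow hprod
  rw [hr, hm, hprod, h0, add_zero] at h1
  have h2 : m i + ∑ k, (@ite ℕ (Δ k ∈ Q i) (Classical.propDecidable _) (β k) 0) ≤
      ∑ k, (@ite ℕ (Δ k ∈ Q i) (Classical.propDecidable _) (α k) 0) := by exact_mod_cast h1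
  exact absurd hi (not_lt.2 h2)

end CE
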