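import Pool.Agent.H43.CE.S.S1
import Pool.Agent.H43.CE.Z.Sub2

/-!
# CE, job S-S3 : height one primes of `𝒮` containing a minor are divisors

Compare `CMT.exists_cov_of_pmnr_mem` (CM/E/E2.lean).  `A1 = MvPolynomial (Low n ⊕ Fin n) ℂ`, `Qt` = preimage of `Q` in `A1` (prime).  The set of all `p` with `Fac1 u w p` is finite (a subset of the finite type
`Perm × Perm`).  Claim: some `p` with `Fac1 u w p` has `VI (E1 I p.1 p.2) ≤ Qt`.  Otherwise choose for each `p` an `f_p ∈ VI (E1 I p.1 p.2)`, `f_p ∉ Qt`, `F = ∏ f_p ∉ Qt` (prime).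
Nullstellensatz: (`MvPolynomial.vanishingIdeal_zeroLocus_eq_radical`, `Qt` is radical): it suffices that `F` vanishes at every point `z` of the zero locus of `Qt`.  As `VI (E1 I u w) ≤ Qt`, `z` is in the closure of
`E1 I u w`; `zz_all` with `y = 1` (`permMat 1 = 1`): `(lowMat (z ∘ inl), z ∘ inr) ∈ ZM I u1 w1`, i.e. `z ∈ Zc I u1 w1`, with `ble u1 u`, `ble w1 w`.
`(u1, w1) ≠ (u, w)`: otherwise `z ∈ Zc I u w = E1 I u w` (`zc_eq_E1`), so `z ∘ inl ∈ SS 1 (u*w)` and `pmnr 1 (u*w) k` does not vanish at it (`CMT.mnr_ne_zero`, `CMT.aeval_pmnr`), but `dS k ∈ Q` gives that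
it vanishes.  `exists_fac1_ge`: `p` with `Fac1 u w p`, `ble u1 p.1`, `ble w1 p.2`.  `f_p ∈ VI (E1 I p.1 p.2) = VI (Zc I p.1 p.2) ≤ VI (Zc I u1 w1)` (`zc_eq_E1`, `zc_mono`), so `f_p` vanishes at `z`, so `F` does.
So `QQ I u w p ≤ Q`.  `QQ` is prime and nonzero (`exists_dS_mem_QQ`, `dS_ne_zero`), `Q` has height one: `QQ = Q` (as in E2.lean).
-/

open MvPolynomial

noncomputable section

namespace CE

open CMT

variable {n : ℕ} {I : Finset (Fin n)} {u w : Equiv.Perm (Fin n)}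

theorem exists_fac_of_mem (hne : NE u w) (hp : Pres I u) (Q : Ideal (CR (E1 I u w)))
    (hQ : Q.IsPrime) (hh : Q.height = 1) (k : Fin n) (hk : dS I u w k ∈ Q) :
    ∃ p, Fac1 u w p ∧ Q = QQ I u w p := by
  classical
  have hprime : (Q.comap (Ideal.Quotient.mk (VI (E1 I u w)))).IsPrime := Ideal.IsPrime.comap _
  have hVI : VI (E1 I u w) ≤ Q.comap (Ideal.Quotient.mk (VI (E1 I u w))) := by
    intro f hf
    show Ideal.Quotient.mk (VI (E1 I u w)) f ∈ Q
    rw [Ideal.Quotient.eq_zero_iff_mem.2 hf]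
    exact Q.zero_mem
  have hz := MvPolynomial.IsPrime.vanishingIdeal_zeroLocus (K := ℂ)
    (Q.comap (Ideal.Quotient.mk (VI (E1 I u w))))
  have claim : ∀ z ∈ zeroLocus ℂ (Q.comap (Ideal.Quotient.mk (VI (E1 I u w)))),
      ∃ p, Fac1 u w p ∧ ∀ f ∈ VI (E1 I p.1 p.2), aeval z f = 0 := by
    intro z hz'
    have h0 := zz_all hne.1 hp 1 (z := z) (fun f hf => hz' f (hVI hf))
    rw [permMat_one, Matrix.one_mul] at h0
    obtain ⟨u1, w1, h1, h2, h3⟩ := h0
    have h4 : z ∈ Zc I u1 w1 := h3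
    have h5 : (u1, w1) ≠ (u, w) := by
      intro h
      obtain ⟨rfl, rfl⟩ := Prod.mk.inj h
      rw [zc_eq_E1 hne.1 hp] at h4
      have h6 := E1_fst h4
      refine mnr_ne_zero h6 k.val k.isLt.le (fun _ => rfl) ?_
      rw [← aeval_pmnr]
      have h7 : aeval z (inX (pmnr 1 (u1 * w1) k.val k.isLt.le)) = 0 := hz' _ hk
      rw [inX, aeval_rename] at h7
      exact h7
    obtain ⟨p, hf, h6, h7⟩ := exists_fac1_ge h1 h2 h5
    refine ⟨p, hf, fun f hf' => ?_⟩
    have h8 : AD p.1 p.2 := hne.2 p hf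
    have h9 : Pres I p.1 := pres_of_ble (Fac1_le hf).1 hp
    rw [← zc_eq_E1 h8 h9] at hf'
    exact (mem_vanishingIdeal_iff.1 (zc_mono h6 h7 hf')) z h4
  have hprod : ∏ p ∈ Finset.univ.filter
      (fun p : Equiv.Perm (Fin n) × Equiv.Perm (Fin n) => Fac1 u w p),
      VI (E1 I p.1 p.2) ≤ Q.comap (Ideal.Quotient.mk (VI (E1 I u w))) := by
    rw [← hz]
    intro f hf
    rw [mem_vanishingIdeal_iff]
    intro z hz'
    obtain ⟨p', h1, h2⟩ := claim z hz'
    have h3 : ∏ p ∈ Finset.univ.filter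
        (fun p : Equiv.Perm (Fin n) × Equiv.Perm (Fin n) => Fac1 u w p),
        VI (E1 I p.1 p.2) ≤ VI (E1 I p'.1 p'.2) :=
      le_trans (Ideal.prod_le_inf
        (f := fun p : Equiv.Perm (Fin n) × Equiv.Perm (Fin n) => VI (E1 I p.1 p.2)))
        (Finset.inf_le
          (f := fun p : Equiv.Perm (Fin n) × Equiv.Perm (Fin n) => VI (E1 I p.1 p.2))
          (Finset.mem_filter.2 ⟨Finset.mem_univ p', h1⟩))
    exact h2 f (h3 hf)
  obtain ⟨p, hp', hle⟩ := (Ideal.IsPrime.prod_le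
    (f := fun p : Equiv.Perm (Fin n) × Equiv.Perm (Fin n) => VI (E1 I p.1 p.2)) hprime).1 hprod
  have hf : Fac1 u w p := (Finset.mem_filter.1 hp').2
  refine ⟨p, hf, ?_⟩
  have hPle : QQ I u w p ≤ Q := Ideal.map_le_iff_le_comap.2 hle
  haveI hPp : (QQ I u w p).IsPrime := QQ_isPrime hne hp hf
  have hPbot : (⊥ : Ideal (CR (E1 I u w))) < QQ I u w p := by
    rw [bot_lt_iff_ne_bot]
    intro hbot
    obtain ⟨k', hk'⟩ := exists_dS_mem_QQ hne hp hf
    rw [hbot] at hk'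
    exact dS_ne_zero I u w k' hk'
  haveI : IsDomain (CR (E1 I u w)) := (E1_normal hne.1 hp).1
  by_contra hcon
  have hlt : QQ I u w p < Q := lt_of_le_of_ne hPle (fun h => hcon h.symm)
  have h1 : (QQ I u w p).height < Q.height := Ideal.height_strict_mono_of_isPrime hlt
  have h2 : (⊥ : Ideal (CR (E1 I u w))).height < (QQ I u w p).height :=
    Ideal.height_strict_mono_of_isPrime hPbot
  rw [hh, ENat.lt_one_iff_eq_zero] at h1
  rw [h1] at h2
  exact not_lt_zero h2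

end CE
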